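import Pool.Agent.Helper185.SelMore

/-!
The four `S₁` properties of the list are preserved under finite unions of sets of reals.
-/

namespace Pool.Agent.Results.MP_9c4169_gt.FourUnion

open Pool.Agent.Helper185.Sel

/-- A property of sets of reals is preserved under finite unions. -/
def UnionPreserved (P : Set ℝ → Prop) : Prop := ∀ A B : Set ℝ, P A → P B → P (A ∪ B)

/-- Each of `S₁(T, T)`, `S₁(Γ, T)`, `S₁(B_T, B_T)`, `S₁(B_Γ, B_T)` is preserved under finite
unions of sets of reals. -/
theorem result :
    UnionPreserved (fun A => S1 (TauOf (OpenFam A)) (TauOf (OpenFam A))) ∧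
    UnionPreserved (fun A => S1 (GammaOf (OpenFam A)) (TauOf (OpenFam A))) ∧
    UnionPreserved (fun A => S1 (TauOf (BorelFam A)) (TauOf (BorelFam A))) ∧
    UnionPreserved (fun A => S1 (GammaOf (BorelFam A)) (TauOf (BorelFam A))) :=
  ⟨s1_tau_tau_union, s1_gamma_tau_union, s1_tau_tau_union_borel, s1_gamma_tau_union_borel⟩

end Pool.Agent.Results.MP_9c4169_gt.FourUnion
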