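import Pool.Agent.Helper185.SelMore

/-!
`S₁(Γ, T)` is preserved under finite unions of sets of reals.
-/

namespace Pool.Agent.Results.MP_9c4169_gt.GammaTauUnion

open Pool.Agent.Helper185.Sel

/-- For all sets of reals `A`, `B` satisfying `S₁(Γ, T)` (open gamma-covers, open tau-covers),
the union `A ∪ B` satisfies `S₁(Γ, T)`. -/
theorem result : ∀ A B : Set ℝ,
    S1 (GammaOf (OpenFam A)) (TauOf (OpenFam A)) →
    S1 (GammaOf (OpenFam B)) (TauOf (OpenFam B)) →
    S1 (GammaOf (OpenFam (A ∪ B : Set ℝ))) (TauOf (OpenFam (A ∪ B : Set ℝ))) :=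
  s1_gamma_tau_union

end Pool.Agent.Results.MP_9c4169_gt.GammaTauUnion
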